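import Pool.Agent.Helper16.BZ.Stmts

open Finset Filter MeasureTheory Topology
open scoped ComplexConjugate InnerProductSpace

namespace Pool.Agent.Helper16.BZ

open Pool.Agent.Helper40.Mob (IsState TwistedDisjoint)

universe u

theorem csp2_iter_norm {A : Type u} [CStarAlgebra A] (α : A →⋆ₐ[ℂ] A) (n : ℕ) (x : A) :
    ‖α^[n] x‖ ≤ ‖x‖ := by
  induction n with
  | zero => simp
  | succ n ih =>
    rw [Function.iterate_succ_apply']
    exact (NonUnitalStarAlgHom.norm_apply_le α _).trans ih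

theorem csp2_iter_add {A : Type u} [CStarAlgebra A] (α : A →⋆ₐ[ℂ] A) (n : ℕ) (x y : A) :
    α^[n] (x + y) = α^[n] x + α^[n] y := by
  induction n with
  | zero => simp
  | succ n ih =>
    rw [Function.iterate_succ_apply', Function.iterate_succ_apply',
      Function.iterate_succ_apply', ih, map_add]

theorem csp2_iter_smul {A : Type u} [CStarAlgebra A] (α : A →⋆ₐ[ℂ] A) (n : ℕ) (c : ℂ) (x : A) :
    α^[n] (c • x) = c • α^[n] x := by
  induction n with
  | zero => simp
  | succ n ih =>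
    rw [Function.iterate_succ_apply', Function.iterate_succ_apply', ih, map_smul]

theorem csp2_iter_zero {A : Type u} [CStarAlgebra A] (α : A →⋆ₐ[ℂ] A) (n : ℕ) :
    α^[n] (0 : A) = 0 := by
  induction n with
  | zero => simp
  | succ n ih =>
    rw [Function.iterate_succ_apply', ih, map_zero]

theorem csp2_zero {A : Type u} [CStarAlgebra A] (α : A →⋆ₐ[ℂ] A) : TwistedDisjoint α (0 : A) := by
  intro ρ _ z _
  simp only [csp2_iter_zero, map_zero, mul_zero, Finset.sum_const_zero, zero_div]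
  exact tendsto_const_nhds

theorem csp2_add {A : Type u} [CStarAlgebra A] (α : A →⋆ₐ[ℂ] A) (x y : A)
    (hx : TwistedDisjoint α x) (hy : TwistedDisjoint α y) : TwistedDisjoint α (x + y) := by
  intro ρ hρ z hz
  have h := (hx ρ hρ z hz).add (hy ρ hρ z hz)
  rw [add_zero] at h
  refine h.congr fun N => ?_
  rw [← add_div, ← Finset.sum_add_distrib]
  congr 1
  refine Finset.sum_congr rfl fun n _ => ?_
  rw [csp2_iter_add, map_add, mul_add]

theorem csp2_smul {A : Type u} [CStarAlgebra A] (α : A →⋆ₐ[ℂ] A) (c : ℂ) (x : A)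
    (hx : TwistedDisjoint α x) : TwistedDisjoint α (c • x) := by
  intro ρ hρ z hz
  have h := (hx ρ hρ z hz).const_mul c
  rw [mul_zero] at h
  refine h.congr fun N => ?_
  rw [← mul_div_assoc, Finset.mul_sum]
  congr 1
  refine Finset.sum_congr rfl fun n _ => ?_
  rw [csp2_iter_smul, map_smul, smul_eq_mul]
  ring

theorem csp2_closure {A : Type u} [CStarAlgebra A] (α : A →⋆ₐ[ℂ] A) (S : Set A)
    (hS : ∀ x ∈ S, TwistedDisjoint α x) (a : A) (ha : a ∈ closure S) : TwistedDisjoint α a := by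
  intro ρ hρ z hz
  rw [Metric.tendsto_atTop]
  intro ε hε
  have hK : 0 < ‖ρ‖ + 1 := by positivity
  obtain ⟨x, hx, hax⟩ := Metric.mem_closure_iff.1 ha (ε / (2 * (‖ρ‖ + 1))) (by positivity)
  obtain ⟨N0, hN0⟩ := Metric.tendsto_atTop.1 (hS x hx ρ hρ z hz) (ε / 2) (by positivity)
  refine ⟨max N0 1, fun N hN => ?_⟩
  have h1 := hN0 N (le_trans (le_max_left _ _) hN)
  have hN1 : 1 ≤ N := le_trans (le_max_right _ _) hN
  have hNp : (0 : ℝ) < N := by exact_mod_cast hN1
  rw [dist_zero_right] at h1 ⊢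
  have h2 : (∑ n ∈ Finset.Icc 1 N, (ArithmeticFunction.moebius n : ℂ) * z ^ n * ρ (α^[n] a)) / (N : ℂ)
      = (∑ n ∈ Finset.Icc 1 N, (ArithmeticFunction.moebius n : ℂ) * z ^ n * ρ (α^[n] x)) / (N : ℂ)
      + (∑ n ∈ Finset.Icc 1 N, (ArithmeticFunction.moebius n : ℂ) * z ^ n * ρ (α^[n] (a - x))) /
        (N : ℂ) := by
    rw [← add_div, ← Finset.sum_add_distrib]
    congr 1
    refine Finset.sum_congr rfl fun n _ => ?_
    rw [← mul_add, ← map_add, ← csp2_iter_add]
    congr 3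
    abel
  have h3 : ‖(∑ n ∈ Finset.Icc 1 N, (ArithmeticFunction.moebius n : ℂ) * z ^ n *
      ρ (α^[n] (a - x))) / (N : ℂ)‖ ≤ (‖ρ‖ + 1) * ‖a - x‖ := by
    rw [norm_div, Complex.norm_natCast, div_le_iff₀ hNp]
    refine (norm_sum_le _ _).trans ?_
    have h4 : ∀ n ∈ Finset.Icc 1 N, ‖(ArithmeticFunction.moebius n : ℂ) * z ^ n *
        ρ (α^[n] (a - x))‖ ≤ (‖ρ‖ + 1) * ‖a - x‖ := by
      intro n _
      rw [norm_mul, norm_mul, norm_pow, hz, one_pow, mul_one]
      have h5 : ‖(ArithmeticFunction.moebius n : ℂ)‖ ≤ 1 := by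
        rw [Complex.norm_intCast]
        exact_mod_cast ArithmeticFunction.abs_moebius_le_one
      have h6 : ‖ρ (α^[n] (a - x))‖ ≤ ‖ρ‖ * ‖a - x‖ :=
        (ρ.le_opNorm _).trans (mul_le_mul_of_nonneg_left (csp2_iter_norm α n _) (norm_nonneg _))
      have h7 := norm_nonneg (ρ (α^[n] (a - x)))
      have h8 := norm_nonneg (a - x)
      nlinarith
    refine (Finset.sum_le_sum h4).trans ?_
    rw [Finset.sum_const, Nat.card_Icc, nsmul_eq_mul]
    have : ((N + 1 - 1 : ℕ) : ℝ) = N := by simp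
    rw [this, mul_comm]
  have h9 : (‖ρ‖ + 1) * ‖a - x‖ < ε / 2 := by
    rw [dist_eq_norm, lt_div_iff₀ (by positivity)] at hax
    linarith
  rw [h2]
  refine (norm_add_le _ _).trans_lt ?_
  linarith

theorem st_CSP2 (h : ST_CTH2.{u}) : ST_CSP2.{u} := by
  intro A _ X _ _ S α π hS hrot a ha
  refine csp2_closure α _ ?_ a ha
  intro x hx
  refine Submodule.span_induction (p := fun x _ => TwistedDisjoint α x) ?_ ?_ ?_ ?_ hx
  · rintro y ⟨d, Φ, v, hF, f, i, rfl⟩
    exact h A X d S α π Φ v hS hrot hF f i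
  · exact csp2_zero α
  · intro y z _ _ hy hz
    exact csp2_add α y z hy hz
  · intro c y _ hy
    exact csp2_smul α c y hy

end Pool.Agent.Helper16.BZ
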